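import Pool.Agent.H31.KOne

set_option autoImplicit false

open Pool.Agent.H31.KCov

theorem Pool.Agent.Results.MP_c6d0b8_gt.Yes.result :
    ∃ (X : Type) (_ : TopologicalSpace X), T2Space X ∧
      (∃ σ : List (Set X) → Set X, (∀ l, IsCompact (σ l) ∧ (σ l).Nonempty) ∧
        ∀ U : ℕ → Set X, (∀ n, IsOpen (U n) ∧ σ ((List.range n).map U) ⊆ U n) →
          ∀ C : Set X, IsCompact C → ∃ n, C ⊆ U n) ∧
      (∀ σ : List (Set X) → Set X,
        (∀ (U : ℕ → Set X) (n : ℕ), (∀ k < n, IsOpen (U k) ∧ σ ((List.range k).map U) ⊆ U k) →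
          (σ ((List.range n).map U)).Finite) →
        ∃ U : ℕ → Set X, (∀ n, IsOpen (U n) ∧ σ ((List.range n).map U) ⊆ U n) ∧
          ⋃ n, U n ≠ Set.univ) ∧
      (∀ C : ℕ → Set X, (∀ n, IsCompact (C n)) →
        ∃ U : ℕ → Set X, (∀ n, IsOpen (U n) ∧ C n ⊆ U n) ∧
          ¬ ∀ D : Set X, IsCompact D → ∃ n, D ⊆ U n) :=
  ⟨Y, inferInstance, inferInstance, one_wins, no_fin, no_pre⟩
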